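import Pool.Agent.Results.MP_5491ed_gt.SigmaCompactInvariance

/-!
# Sigma-compactness of `X` from `C_p(C_p(X))` and function spaces of subspaces of `C_p(Y)`
-/

set_option autoImplicit false

open Set Topology Filter
open Pool.Agent.Helper126

namespace Pool.Agent.Results.MP_5491ed_gt.SubspaceInvariance

theorem MFT_of_inducing {P Q : Type*} [TopologicalSpace P] [TopologicalSpace Q] {i : P → Q}
    (hi : IsInducing i) (x : P) (h : MFT univ (i x)) : MFT univ x := by
  classical
  obtain ⟨σ, h1, h2⟩ := h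
  have key : ∀ (n : ℕ) (D : Set P), ∃ E : Finset P, x ∈ closure D →
      (E : Set P) ⊆ D ∧ E.image i = σ n (i '' D) := by
    intro n D
    by_cases hx : x ∈ closure D
    · rw [hi.closure_eq_preimage_closure_image] at hx
      obtain ⟨E, hE1, hE2⟩ := Finset.subset_set_image_iff.1 (h1 n (i '' D) (subset_univ _) hx)
      exact ⟨E, fun _ => ⟨hE1, hE2⟩⟩
    · exact ⟨∅, fun h => absurd h hx⟩
  choose E hE using key
  refine ⟨E, fun n D _ hD => (hE n D hD).1, fun D N hN hD => ?_⟩
  rw [hi.closure_eq_preimage_closure_image, mem_preimage]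
  have h3 := h2 (fun n => i '' D n) N hN (fun n hn => ⟨subset_univ _, by
    have := (hD n hn).2
    rwa [hi.closure_eq_preimage_closure_image] at this⟩)
  refine closure_mono ?_ h3
  refine iUnion₂_subset fun n hn => ?_
  intro q hq
  rw [← (hE n (D n) (hD n hn).2).2, Finset.coe_image] at hq
  obtain ⟨p, hp, rfl⟩ := hq
  exact ⟨p, mem_iUnion₂.2 ⟨n, hn, hp⟩, rfl⟩

theorem MFT_of_firstCountable {P : Type*} [TopologicalSpace P] [FirstCountableTopology P]
    (x : P) : MFT univ x := by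
  classical
  obtain ⟨U, hU⟩ := (𝓝 x).exists_antitone_basis
  have key : ∀ (n : ℕ) (D : Set P), ∃ E : Finset P, x ∈ closure D →
      (E : Set P) ⊆ D ∧ ∃ z ∈ E, z ∈ U n := by
    intro n D
    by_cases hx : x ∈ closure D
    · obtain ⟨z, hz1, hz2⟩ := mem_closure_iff_nhds.1 hx (U n) (hU.1.mem_of_mem trivial)
      exact ⟨{z}, fun _ => ⟨by simpa using hz2, z, by simp, hz1⟩⟩
    · exact ⟨∅, fun h => absurd h hx⟩
  choose E hE using key
  refine ⟨E, fun n D _ hD => (hE n D hD).1, fun D N hN hD => ?_⟩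
  rw [mem_closure_iff_nhds]
  intro V hV
  obtain ⟨k, -, hk⟩ := hU.1.mem_iff.1 hV
  obtain ⟨n, hnN, hn⟩ := hN.exists_gt k
  obtain ⟨-, z, hz1, hz2⟩ := hE n (D n) (hD n hnN).2
  exact ⟨z, hk (hU.2 hn.le hz2), mem_iUnion₂.2 ⟨n, hnN, hz1⟩⟩

/-- If all finite powers of `A` have the Markov fan tightness at all points and `C_p(A)` is
homeomorphic to `C_p(C_p(X))`, then `X` is sigma-compact. -/
theorem sigmaCompact_of_MFT {X A : Type*} [TopologicalSpace X] [T35Space X] [TopologicalSpace A]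
    [T35Space A] (hA : ∀ (m : ℕ) (x : Fin m → A), MFT univ x) (h : Cp A ≃ₜ Cp (Cp X)) :
    SigmaCompactSpace X := by
  obtain ⟨h', h0⟩ := exists_norm_homeo h
  refine sigmaCompact_of_pieces (J := ℕ × ℕ) (fun q => Piece h' q.1 q.2) ?_ ?_
  · intro b
    obtain ⟨n, m, hb⟩ := exists_Piece h' h'.continuous h0 b
    exact ⟨(n, m), hb⟩
  · intro q b hb
    exact piece_MFT h' h0 q.1 q.2 (fun x => hA q.2 x) b hb

/-- (1) If `Y` is sigma-compact, `S` is a subspace of `C_p(Y)` and `C_p(S)` is homeomorphic to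
`C_p(C_p(X))`, then `X` is sigma-compact. (2) If `A` is a first countable Tychonoff space and
`C_p(A)` is homeomorphic to `C_p(C_p(X))`, then `X` is sigma-compact. The case `S = C_p(Y)` of (1)
is (3): if `C_p(C_p(X))` and `C_p(C_p(Y))` are homeomorphic and `Y` is sigma-compact, then `X` is
sigma-compact (Question 1, and hence Question 2). -/
theorem result (X : Type*) [TopologicalSpace X] [T35Space X] :
    (∀ (Y : Type*) [TopologicalSpace Y] [T35Space Y] [SigmaCompactSpace Y] (S : Set (Cp Y)),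
      Nonempty (Cp S ≃ₜ Cp (Cp X)) → SigmaCompactSpace X) ∧
    (∀ (A : Type*) [TopologicalSpace A] [T35Space A] [FirstCountableTopology A],
      Nonempty (Cp A ≃ₜ Cp (Cp X)) → SigmaCompactSpace X) ∧
    (∀ (Y : Type*) [TopologicalSpace Y] [T35Space Y] [SigmaCompactSpace Y],
      Nonempty (Cp (Cp X) ≃ₜ Cp (Cp Y)) → SigmaCompactSpace X) := by
  refine ⟨fun Y _ _ _ S ⟨h⟩ => ?_, fun A _ _ _ ⟨h⟩ => ?_, fun Y _ _ hY ⟨h⟩ => ?_⟩
  · refine sigmaCompact_of_MFT (fun m x => ?_) h
    have hi : IsInducing (Pi.map (fun _ : Fin m => (Subtype.val : S → Cp Y))) :=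
      IsInducing.piMap fun _ => IsInducing.subtypeVal
    exact MFT_of_inducing hi x (MFT_pow m _)
  · exact sigmaCompact_of_MFT (fun m x => MFT_of_firstCountable x) h
  · exact SigmaCompactInvariance.result X Y ⟨h⟩ hY

end Pool.Agent.Results.MP_5491ed_gt.SubspaceInvariance
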